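import Pool.Agent.helper73.AA.Def

set_option autoImplicit false

/-!
# Almost all multisets of multiplicities have small maximum: counting

`PS m0 N`: the multisets of integers `≥ m0` with `∑ C(m+1,2) = N`; `P m0 N` their number.
`PS_cut`: those with at least `i` copies of `m` are in bijection with `PS m0 (N - i C(m+1,2))`.
`weight`: `N P(N) = ∑ ∑ C(m+1,2) count m ms`, so `N P(N) ≥ ∑_(m,i) C(m+1,2) P(N - i C(m+1,2))`.
-/

namespace Pool.Agent.helper73.AA

lemma two_tr (m : ℕ) : 2 * tr m = m * (m + 1) := by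
  unfold tr
  rw [Nat.choose_two_right, Nat.add_sub_cancel, Nat.mul_comm (m + 1) m]
  exact Nat.mul_div_cancel' (Nat.even_mul_succ_self m).two_dvd

lemma tr_strictMono : StrictMono tr := by
  intro a b hab
  have h1 := two_tr a
  have h2 := two_tr b
  nlinarith

lemma tr_pos {m : ℕ} (h : 1 ≤ m) : 1 ≤ tr m := by
  have h1 := two_tr m
  nlinarith

lemma le_tr (m : ℕ) : m ≤ tr m := by
  have h1 := two_tr m
  rcases Nat.eq_zero_or_pos m with h | h
  · subst h; omega
  · nlinarith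

lemma map_tr_injective : Function.Injective (Multiset.map tr) :=
  Multiset.map_injective tr_strictMono.injective

lemma PS_finite {m0 : ℕ} (h0 : 1 ≤ m0) (N : ℕ) : (PS m0 N).Finite := by
  have h1 : (Set.range (fun π : Nat.Partition N => π.parts)).Finite := Set.finite_range _
  refine (h1.preimage (f := Multiset.map tr) map_tr_injective.injOn).subset ?_
  rintro ms ⟨hm, hs⟩
  refine ⟨⟨ms.map tr, ?_, hs⟩, rfl⟩
  intro i hi
  obtain ⟨m, hm1, rfl⟩ := Multiset.mem_map.mp hi
  exact tr_pos (h0.trans (hm m hm1))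

/-- their number -/
noncomputable def P (m0 N : ℕ) : ℕ := (PS m0 N).ncard

/-- at least `i` copies of `m` -/
lemma PS_cut {m0 : ℕ} {N m i : ℕ} (hm : m0 ≤ m) (hi : i * tr m ≤ N) :
    {ms ∈ PS m0 N | i ≤ ms.count m}.ncard = P m0 (N - i * tr m) := by
  have h1 : {ms ∈ PS m0 N | i ≤ ms.count m} =
      (fun ms => ms + Multiset.replicate i m) '' PS m0 (N - i * tr m) := by
    ext ms
    constructor
    · rintro ⟨⟨h2, h3⟩, h4⟩
      have h5 : Multiset.replicate i m ≤ ms := Multiset.le_count_iff_replicate_le.mp h4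
      refine ⟨ms - Multiset.replicate i m, ⟨?_, ?_⟩, ?_⟩
      · intro x hx
        exact h2 x (Multiset.mem_of_le (Multiset.sub_le_self _ _) hx)
      · have h6 := tsub_add_cancel_of_le h5
        have h7 : ((ms - Multiset.replicate i m).map tr).sum + i * tr m = N := by
          rw [← h3]
          conv_rhs => rw [← h6]
          rw [Multiset.map_add, Multiset.sum_add, Multiset.map_replicate, Multiset.sum_replicate,
            smul_eq_mul]
        omega
      · exact tsub_add_cancel_of_le h5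
    · rintro ⟨ms', ⟨h2, h3⟩, rfl⟩
      refine ⟨⟨?_, ?_⟩, ?_⟩
      · intro x hx
        rcases Multiset.mem_add.mp hx with h | h
        · exact h2 x h
        · rw [Multiset.eq_of_mem_replicate h]
          exact hm
      · rw [Multiset.map_add, Multiset.sum_add, Multiset.map_replicate, Multiset.sum_replicate,
          smul_eq_mul, h3]
        omega
      · simp
  rw [h1, Set.ncard_image_of_injective _ (add_left_injective _)]
  rfl

/-- adding a fixed multiset -/
lemma P_le_of {m0 : ℕ} (h0 : 1 ≤ m0) {N N' : ℕ} {μ : Multiset ℕ} (hμ : μ ∈ PS m0 N') :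
    P m0 N ≤ P m0 (N + N') := by
  have h1 : (fun ms => ms + μ) '' PS m0 N ⊆ PS m0 (N + N') := by
    rintro _ ⟨ms, ⟨h2, h3⟩, rfl⟩
    refine ⟨?_, ?_⟩
    · intro x hx
      rcases Multiset.mem_add.mp hx with h | h
      · exact h2 x h
      · exact hμ.1 x h
    · rw [Multiset.map_add, Multiset.sum_add, h3, hμ.2]
  have h2 := Set.ncard_le_ncard h1 (PS_finite h0 _)
  rwa [Set.ncard_image_of_injective _ (add_left_injective _)] at h2

/-- all large numbers are sums -/
lemma exists_PS {m0 : ℕ} (h0 : 1 ≤ m0) {n : ℕ}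
    (hn : (tr m0) * ((2 * tr m0 + 1) * (tr m0 + 1)) ≤ n) : ∃ μ, μ ∈ PS m0 n := by
  set A := tr m0 with hA
  have hA1 : 1 ≤ A := tr_pos h0
  set q := 2 * A + 1 with hq
  have hB : tr q = q * (A + 1) := by
    have := two_tr q
    have h2 : 2 * tr q = 2 * (q * (A + 1)) := by rw [this, hq]; ring
    omega
  set B := q * (A + 1) with hBdef
  -- `B = 1 mod A`
  have hB1 : B = A * (2 * A + 3) + 1 := by rw [hBdef, hq]; ring
  set y := n % A with hy
  have hyA : y < A := Nat.mod_lt _ hA1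
  have hyB : y * B ≤ n := by
    calc y * B ≤ A * B := Nat.mul_le_mul_right _ hyA.le
      _ ≤ n := hn
  have hdvd : A ∣ n - y * B := by
    have h1 : y * B = A * (y * (2 * A + 3)) + y := by rw [hB1]; ring
    have h2 : n = A * (n / A) + y := (Nat.div_add_mod n A).symm
    have h3 : y * (2 * A + 3) ≤ n / A := by
      have h4 : A * (y * (2 * A + 3)) + y ≤ A * (n / A) + y := by omega
      have h5 : A * (y * (2 * A + 3)) ≤ A * (n / A) := by omega
      exact Nat.le_of_mul_le_mul_left h5 hA1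
    refine ⟨n / A - y * (2 * A + 3), ?_⟩
    rw [Nat.mul_sub]
    omega
  obtain ⟨x, hx⟩ := hdvd
  refine ⟨Multiset.replicate x m0 + Multiset.replicate y q, ?_, ?_⟩
  · intro z hz
    rcases Multiset.mem_add.mp hz with h | h
    · exact (Multiset.eq_of_mem_replicate h).ge
    · rw [Multiset.eq_of_mem_replicate h]
      exact (le_tr m0).trans (by omega)
  · rw [Multiset.map_add, Multiset.sum_add, Multiset.map_replicate, Multiset.map_replicate,
      Multiset.sum_replicate, Multiset.sum_replicate, smul_eq_mul, smul_eq_mul, ← hA, hB]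
    have : x * A = n - y * B := by rw [hx, Nat.mul_comm]
    omega

/-- the Frobenius bound -/
def Fr (m0 : ℕ) : ℕ := (tr m0) * ((2 * tr m0 + 1) * (tr m0 + 1))

lemma P_mono {m0 : ℕ} (h0 : 1 ≤ m0) {N N' : ℕ} (h : N + Fr m0 ≤ N') : P m0 N ≤ P m0 N' := by
  obtain ⟨μ, hμ⟩ := exists_PS h0 (n := N' - N) (by unfold Fr at h; omega)
  have h1 := P_le_of h0 (N := N) hμ
  rwa [Nat.add_sub_cancel' (by omega)] at h1

lemma P_pos {m0 : ℕ} (h0 : 1 ≤ m0) {N : ℕ} (h : Fr m0 ≤ N) : 0 < P m0 N := by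
  obtain ⟨μ, hμ⟩ := exists_PS h0 (n := N) h
  exact (Set.ncard_pos (PS_finite h0 N)).mpr ⟨μ, hμ⟩

lemma sum_tr_ge (ms : Multiset ℕ) (T : Finset ℕ) :
    ∑ m ∈ T, tr m * ms.count m ≤ (ms.map tr).sum := by
  classical
  rw [Finset.sum_multiset_map_count]
  have h1 : ∑ m ∈ T, tr m * ms.count m = ∑ m ∈ T ∩ ms.toFinset, tr m * ms.count m := by
    symm
    apply Finset.sum_subset Finset.inter_subset_left
    intro m hm hm'
    have : m ∉ ms := by
      intro h
      exact hm' (Finset.mem_inter.mpr ⟨hm, Multiset.mem_toFinset.mpr h⟩)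
    rw [Multiset.count_eq_zero_of_notMem this, mul_zero]
  rw [h1]
  calc ∑ m ∈ T ∩ ms.toFinset, tr m * ms.count m
      ≤ ∑ m ∈ ms.toFinset, tr m * ms.count m :=
        Finset.sum_le_sum_of_subset Finset.inter_subset_right
    _ = ∑ m ∈ ms.toFinset, ms.count m • tr m := by
        apply Finset.sum_congr rfl
        intro m _
        rw [smul_eq_mul, mul_comm]

lemma count_ge (c I : ℕ) : ∑ i ∈ Finset.Icc 1 I, (if i ≤ c then 1 else 0) ≤ c := by
  rw [← Finset.card_filter]
  calc ((Finset.Icc 1 I).filter (fun i => i ≤ c)).card ≤ (Finset.Icc 1 c).card := by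
        apply Finset.card_le_card
        intro i hi
        rw [Finset.mem_filter, Finset.mem_Icc] at hi
        rw [Finset.mem_Icc]
        omega
    _ = c := by simp

/-- the weight inequality -/
lemma weight {m0 : ℕ} (h0 : 1 ≤ m0) (N : ℕ) (T : Finset ℕ) (hT : ∀ m ∈ T, m0 ≤ m) (I : ℕ → ℕ)
    (hI : ∀ m ∈ T, I m * tr m ≤ N) :
    ∑ m ∈ T, tr m * ∑ i ∈ Finset.Icc 1 (I m), P m0 (N - i * tr m) ≤ N * P m0 N := by
  classical
  set S := (PS_finite h0 N).toFinset with hS
  have hP : P m0 N = S.card := Set.ncard_eq_toFinset_card _ (PS_finite h0 N)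
  have h1 : N * P m0 N = ∑ ms ∈ S, (ms.map tr).sum := by
    rw [hP, mul_comm, ← smul_eq_mul, ← Finset.sum_const]
    apply Finset.sum_congr rfl
    intro ms hms
    have : ms ∈ PS m0 N := (Set.Finite.mem_toFinset _).mp hms
    exact this.2.symm
  rw [h1]
  have h2 : ∀ m ∈ T, ∀ i ∈ Finset.Icc 1 (I m), P m0 (N - i * tr m) =
      ∑ ms ∈ S, (if i ≤ ms.count m then 1 else 0) := by
    intro m hm i hi
    have hi2 := (Finset.mem_Icc.mp hi).2
    rw [← PS_cut (hT m hm) ((Nat.mul_le_mul_right _ hi2).trans (hI m hm)), ← Finset.card_filter]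
    rw [← Set.ncard_coe_finset]
    congr 1
    ext ms
    simp [hS]
  calc ∑ m ∈ T, tr m * ∑ i ∈ Finset.Icc 1 (I m), P m0 (N - i * tr m)
      = ∑ m ∈ T, tr m * ∑ i ∈ Finset.Icc 1 (I m), ∑ ms ∈ S,
          (if i ≤ ms.count m then 1 else 0) := by
        apply Finset.sum_congr rfl
        intro m hm
        congr 1
        exact Finset.sum_congr rfl (h2 m hm)
    _ = ∑ m ∈ T, ∑ ms ∈ S, tr m * ∑ i ∈ Finset.Icc 1 (I m), (if i ≤ ms.count m then 1 else 0) := by
        apply Finset.sum_congr rfl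
        intro m _
        rw [Finset.sum_comm, Finset.mul_sum]
    _ = ∑ ms ∈ S, ∑ m ∈ T, tr m * ∑ i ∈ Finset.Icc 1 (I m), (if i ≤ ms.count m then 1 else 0) :=
        Finset.sum_comm
    _ ≤ ∑ ms ∈ S, ∑ m ∈ T, tr m * ms.count m := by
        apply Finset.sum_le_sum
        intro ms _
        apply Finset.sum_le_sum
        intro m _
        exact Nat.mul_le_mul_left _ (count_ge _ _)
    _ ≤ ∑ ms ∈ S, (ms.map tr).sum := Finset.sum_le_sum fun ms _ => sum_tr_ge ms T

/-- growth -/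
lemma grow {m0 : ℕ} (h0 : 1 ≤ m0) {N k B : ℕ} (hk : k ≤ N) (hB : 2 * tr B + Fr m0 ≤ k) :
    (B + 1 - m0) * (k - Fr m0) * P m0 (N - k) ≤ 2 * (N * P m0 N) := by
  have hw := weight h0 N (Finset.Icc m0 B) (fun m hm => (Finset.mem_Icc.mp hm).1)
    (fun m => (k - Fr m0) / tr m) (fun m _ => (Nat.div_mul_le_self _ _).trans (by omega))
  have h1 : ∀ m ∈ Finset.Icc m0 B, (k - Fr m0) * P m0 (N - k) ≤
      2 * (tr m * ∑ i ∈ Finset.Icc 1 ((k - Fr m0) / tr m), P m0 (N - i * tr m)) := by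
    intro m hm
    obtain ⟨hm1, hm2⟩ := Finset.mem_Icc.mp hm
    have htr : tr m ≤ tr B := tr_strictMono.monotone hm2
    have htp : 0 < tr m := tr_pos (h0.trans hm1)
    have h2 : ((k - Fr m0) / tr m) * P m0 (N - k) ≤
        ∑ i ∈ Finset.Icc 1 ((k - Fr m0) / tr m), P m0 (N - i * tr m) := by
      calc ((k - Fr m0) / tr m) * P m0 (N - k)
          = ∑ i ∈ Finset.Icc 1 ((k - Fr m0) / tr m), P m0 (N - k) := by
            rw [Finset.sum_const, Nat.card_Icc, smul_eq_mul, Nat.add_sub_cancel]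
        _ ≤ _ := by
            apply Finset.sum_le_sum
            intro i hi
            have hi2 := (Finset.mem_Icc.mp hi).2
            have h3 : i * tr m ≤ k - Fr m0 :=
              (Nat.mul_le_mul_right _ hi2).trans (Nat.div_mul_le_self _ _)
            apply P_mono h0
            omega
    have h3 : k - Fr m0 ≤ 2 * (tr m * ((k - Fr m0) / tr m)) := by
      have h4 := Nat.div_add_mod (k - Fr m0) (tr m)
      have h5 := Nat.mod_lt (k - Fr m0) htp
      omega
    calc (k - Fr m0) * P m0 (N - k) ≤ 2 * (tr m * ((k - Fr m0) / tr m)) * P m0 (N - k) :=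
          Nat.mul_le_mul_right _ h3
      _ = 2 * (tr m * (((k - Fr m0) / tr m) * P m0 (N - k))) := by ring
      _ ≤ _ := Nat.mul_le_mul_left _ (Nat.mul_le_mul_left _ h2)
  have h2 := Finset.sum_le_sum h1
  rw [Finset.sum_const, Nat.card_Icc, smul_eq_mul, ← Finset.mul_sum] at h2
  calc (B + 1 - m0) * (k - Fr m0) * P m0 (N - k) =
      (B + 1 - m0) * ((k - Fr m0) * P m0 (N - k)) := by ring
    _ ≤ _ := h2
    _ ≤ _ := Nat.mul_le_mul_left _ hw

lemma halve {m0 : ℕ} (h0 : 1 ≤ m0) {N k B : ℕ} (hN : 0 < N) (hk : k ≤ N)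
    (hB : 2 * tr B + Fr m0 ≤ k) (h4 : 4 * N ≤ (B + 1 - m0) * (k - Fr m0)) :
    2 * P m0 (N - k) ≤ P m0 N := by
  have h1 := grow h0 hk hB
  have h2 : 4 * N * P m0 (N - k) ≤ 2 * (N * P m0 N) := (Nat.mul_le_mul_right _ h4).trans h1
  have h3 : (2 * N) * (2 * P m0 (N - k)) ≤ (2 * N) * P m0 N := by
    calc (2 * N) * (2 * P m0 (N - k)) = 4 * N * P m0 (N - k) := by ring
      _ ≤ _ := h2
      _ = _ := by ring
  exact Nat.le_of_mul_le_mul_left h3 (by omega)

lemma iter {m0 : ℕ} (h0 : 1 ≤ m0) {k B : ℕ} (hkp : 0 < k)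
    (hB : 2 * tr B + Fr m0 ≤ k) : ∀ (j N : ℕ), j * k ≤ N →
    4 * N ≤ (B + 1 - m0) * (k - Fr m0) → 2 ^ j * P m0 (N - j * k) ≤ P m0 N := by
  intro j
  induction j with
  | zero => intro N _ _; simp
  | succ j ih =>
    intro N hN h4
    have hkN : k ≤ N := by nlinarith
    have h1 := halve h0 (by omega) hkN hB h4
    have h2 := ih (N - k) (by rw [Nat.succ_mul] at hN; omega) (by omega)
    have h3 : N - k - j * k = N - (j + 1) * k := by rw [Nat.succ_mul]; omega
    rw [h3] at h2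
    calc 2 ^ (j + 1) * P m0 (N - (j + 1) * k) = 2 * (2 ^ j * P m0 (N - (j + 1) * k)) := by ring
      _ ≤ 2 * P m0 (N - k) := Nat.mul_le_mul_left _ h2
      _ ≤ _ := h1

/-- few multisets have a large element -/
theorem few_big {m0 : ℕ} (h0 : 1 ≤ m0) {N k B j M : ℕ} (hkp : 0 < k)
    (hB : 2 * tr B + Fr m0 ≤ k) (hjN : j * k ≤ N)
    (h4 : 4 * N ≤ (B + 1 - m0) * (k - Fr m0)) (hM : j * k + Fr m0 ≤ tr (M + 1)) (hM0 : m0 ≤ M + 1) :
    2 ^ j * {ms ∈ PS m0 N | ∃ m ∈ ms, M < m}.ncard ≤ N * P m0 N := by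
  classical
  have hit := iter h0 hkp hB j N hjN h4
  have hfin := PS_finite h0 N
  have h1 : {ms ∈ PS m0 N | ∃ m ∈ ms, M < m} ⊆
      ⋃ m ∈ Finset.Ioc M N, {ms ∈ PS m0 N | 1 ≤ ms.count m} := by
    rintro ms ⟨hms, m, hm, hmM⟩
    have hmN : m ≤ N := by
      have h2 : tr m ≤ (ms.map tr).sum :=
        Multiset.single_le_sum (fun _ _ => Nat.zero_le _) _ (Multiset.mem_map_of_mem tr hm)
      rw [hms.2] at h2
      exact (le_tr m).trans h2
    simp only [Set.mem_iUnion]
    exact ⟨m, Finset.mem_Ioc.mpr ⟨hmM, hmN⟩, hms, Multiset.one_le_count_iff_mem.mpr hm⟩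
  have h2 : {ms ∈ PS m0 N | ∃ m ∈ ms, M < m}.ncard ≤
      ∑ m ∈ Finset.Ioc M N, {ms ∈ PS m0 N | 1 ≤ ms.count m}.ncard := by
    refine (Set.ncard_le_ncard h1 ?_).trans ?_
    · exact Set.Finite.biUnion (Finset.finite_toSet _) fun m _ => hfin.subset (Set.sep_subset _ _)
    · exact Finset.set_ncard_biUnion_le _ _
  have h3 : ∀ m ∈ Finset.Ioc M N, 2 ^ j * {ms ∈ PS m0 N | 1 ≤ ms.count m}.ncard ≤ P m0 N := by
    intro m hm
    obtain ⟨hm1, hm2⟩ := Finset.mem_Ioc.mp hm
    rcases Nat.lt_or_ge N (tr m) with hlt | hge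
    · have : {ms ∈ PS m0 N | 1 ≤ ms.count m} = ∅ := by
        ext ms
        simp only [Set.mem_ofPred_eq, Set.mem_empty_iff_false, iff_false, not_and]
        intro hms hc
        have h2 : tr m ≤ (ms.map tr).sum :=
          Multiset.single_le_sum (fun _ _ => Nat.zero_le _) _
            (Multiset.mem_map_of_mem tr (Multiset.one_le_count_iff_mem.mp hc))
        rw [hms.2] at h2
        omega
      rw [this]
      simp
    · have htr : tr (M + 1) ≤ tr m := tr_strictMono.monotone hm1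
      rw [PS_cut (by omega) (by rw [one_mul]; exact hge), one_mul]
      refine (Nat.mul_le_mul_left _ (P_mono h0 (N' := N - j * k) ?_)).trans hit
      omega
  calc 2 ^ j * {ms ∈ PS m0 N | ∃ m ∈ ms, M < m}.ncard
      ≤ 2 ^ j * ∑ m ∈ Finset.Ioc M N, {ms ∈ PS m0 N | 1 ≤ ms.count m}.ncard :=
        Nat.mul_le_mul_left _ h2
    _ = ∑ m ∈ Finset.Ioc M N, 2 ^ j * {ms ∈ PS m0 N | 1 ≤ ms.count m}.ncard := by
        rw [Finset.mul_sum]
    _ ≤ ∑ m ∈ Finset.Ioc M N, P m0 N := Finset.sum_le_sum h3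
    _ = (N - M) * P m0 N := by rw [Finset.sum_const, Nat.card_Ioc, smul_eq_mul]
    _ ≤ N * P m0 N := Nat.mul_le_mul_right _ (Nat.sub_le _ _)

end Pool.Agent.helper73.AA
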