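import Mathlib
import Pool.Agent.helper89.Segre.Def

set_option autoImplicit false

/-!
# Multiplicities at general points: definitions

`PS m0 N` is the set of all finite multisets of integers `≥ m0` (multiplicities of base points)
which impose `N = ∑ C(m+1,2)` conditions. `HasSpecial ms` says that for some degree `d` the linear
system of plane curves of degree `d` with multiplicities `ms` at general points is special.
-/

namespace Pool.Agent.helper73.AA

open MvPolynomial Pool.Agent.helper89.Segre

/-- number of conditions of a point of multiplicity `m` -/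
def tr (m : ℕ) : ℕ := (m + 1).choose 2

/-- the multisets of integers at least `m0` which impose `N` conditions -/
def PS (m0 N : ℕ) : Set (Multiset ℕ) :=
  {ms | (∀ m ∈ ms, m0 ≤ m) ∧ (ms.map tr).sum = N}

/-- the system of degree `d` with multiplicities `m` at general points is non-special: it has the
expected dimension `max 0 (C(d+2,2) - ∑ C(m_k+1,2))` -/
def NonSpecial (d : ℕ) {h : ℕ} (m : Fin h → ℕ) : Prop :=
  ∃ Q : MvPolynomial (Fin h × Fin 3) ℂ, Q ≠ 0 ∧ ∀ p : Fin h → Fin 3 → ℂ,
    eval (fun ij : Fin h × Fin 3 => p ij.1 ij.2) Q ≠ 0 →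
    Module.finrank ℂ (sys d h m p) = (d + 2).choose 2 - ∑ k, (m k + 1).choose 2

/-- some system with the multiplicities `ms` is special -/
def HasSpecial (ms : Multiset ℕ) : Prop :=
  ∃ (h : ℕ) (m : Fin h → ℕ) (d : ℕ), Finset.univ.val.map m = ms ∧ ¬ NonSpecial d m

end Pool.Agent.helper73.AA
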