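import Pool.Agent.helper73.AA.Count

set_option autoImplicit false

/-!
# Almost all multisets of multiplicities have small maximum: numbers

`N` between `t ^ 60` and `(t + 1) ^ 60`, `k = 8 t ^ 40`, `B = 2 t ^ 20`, `j = 2 (t + 1) ^ 6`,
`M + 1 = 9 t ^ 23`.
-/

namespace Pool.Agent.helper73.AA

lemma exists_root (N : ℕ) : ∃ t : ℕ, t ^ 60 ≤ N ∧ N < (t + 1) ^ 60 := by
  classical
  have hex : ∃ t : ℕ, N < (t + 1) ^ 60 :=
    ⟨N, by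
      calc N < N + 1 := Nat.lt_succ_self N
        _ ≤ (N + 1) ^ 60 := Nat.le_self_pow (by norm_num) _⟩
  refine ⟨Nat.find hex, ?_, Nat.find_spec hex⟩
  rcases Nat.eq_zero_or_pos (Nat.find hex) with h | h
  · rw [h]; simp
  · have h1 := Nat.find_min hex (m := Nat.find hex - 1) (by omega)
    rw [Nat.sub_add_cancel h] at h1
    exact Nat.le_of_not_lt h1

/-- `(t + 1) ^ 60 ≤ 2 t ^ 60` -/
lemma pow60 {t : ℕ} (ht : 100 ≤ t) : (t + 1) ^ 60 ≤ 2 * t ^ 60 := by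
  have h1 : (100 * (t + 1)) ^ 60 ≤ (101 * t) ^ 60 := Nat.pow_le_pow_left (by omega) 60
  rw [Nat.mul_pow, Nat.mul_pow] at h1
  have h2 : (101 : ℕ) ^ 60 ≤ 2 * 100 ^ 60 := by norm_num
  have h3 : 100 ^ 60 * (t + 1) ^ 60 ≤ 100 ^ 60 * (2 * t ^ 60) := by
    calc 100 ^ 60 * (t + 1) ^ 60 ≤ 101 ^ 60 * t ^ 60 := h1
      _ ≤ (2 * 100 ^ 60) * t ^ 60 := Nat.mul_le_mul_right _ h2
      _ = 100 ^ 60 * (2 * t ^ 60) := by ring
  exact Nat.le_of_mul_le_mul_left h3 (by positivity)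

/-- `(t + 1) ^ 6 ≤ 2 t ^ 6` -/
lemma pow6 {t : ℕ} (ht : 100 ≤ t) : (t + 1) ^ 6 ≤ 2 * t ^ 6 := by
  have h1 : (100 * (t + 1)) ^ 6 ≤ (101 * t) ^ 6 := Nat.pow_le_pow_left (by omega) 6
  rw [Nat.mul_pow, Nat.mul_pow] at h1
  have h2 : (101 : ℕ) ^ 6 ≤ 2 * 100 ^ 6 := by norm_num
  have h3 : 100 ^ 6 * (t + 1) ^ 6 ≤ 100 ^ 6 * (2 * t ^ 6) := by
    calc 100 ^ 6 * (t + 1) ^ 6 ≤ 101 ^ 6 * t ^ 6 := h1
      _ ≤ (2 * 100 ^ 6) * t ^ 6 := Nat.mul_le_mul_right _ h2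
      _ = 100 ^ 6 * (2 * t ^ 6) := by ring
  exact Nat.le_of_mul_le_mul_left h3 (by positivity)

/-- `u ^ 60 ≤ 2 ^ (u ^ 6)` -/
lemma pow_two_ge {u : ℕ} (hu : 3 ≤ u) : u ^ 60 ≤ 2 ^ (u ^ 6) := by
  have h1 : u ^ 60 ≤ (2 ^ u) ^ 60 := Nat.pow_le_pow_left (Nat.lt_two_pow_self).le 60
  have h2 : u * 60 ≤ u ^ 6 := by
    have h3 : 3 ^ 5 ≤ u ^ 5 := Nat.pow_le_pow_left hu 5
    calc u * 60 ≤ u * u ^ 5 := Nat.mul_le_mul_left _ (by omega)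
      _ = u ^ 6 := by ring
  calc u ^ 60 ≤ (2 ^ u) ^ 60 := h1
    _ = 2 ^ (u * 60) := by rw [pow_mul]
    _ ≤ 2 ^ (u ^ 6) := Nat.pow_le_pow_right (by norm_num) h2

/-- few multisets have an element `≥ 9 t ^ 23` -/
theorem few {m0 : ℕ} (h0 : 1 ≤ m0) {t N : ℕ} (ht : 100 ≤ t) (htF : Fr m0 ≤ t) (htm : m0 ≤ t)
    (h1 : t ^ 60 ≤ N) (h2 : N < (t + 1) ^ 60) :
    2 ^ ((t + 1) ^ 6) * {ms ∈ PS m0 N | ∃ m ∈ ms, 9 * t ^ 23 - 1 < m}.ncard ≤ P m0 N := by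
  have ht1 : 1 ≤ t := by omega
  have hN2 : N ≤ 2 * t ^ 60 := h2.le.trans (pow60 ht)
  have hN0 : 0 < N := lt_of_lt_of_le (by positivity) h1
  -- powers
  have e6 : t ≤ t ^ 6 := Nat.le_self_pow (by norm_num) t
  have e14 : 32 ≤ t ^ 14 := by
    calc 32 ≤ t := by omega
      _ ≤ t ^ 14 := Nat.le_self_pow (by norm_num) t
  have e19 : 2 ≤ t ^ 19 := by
    calc 2 ≤ t := by omega
      _ ≤ t ^ 19 := Nat.le_self_pow (by norm_num) t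
  have e20 : 2 * t ≤ t ^ 20 := by
    calc 2 * t ≤ t ^ 19 * t := Nat.mul_le_mul_right _ e19
      _ = t ^ 20 := by ring
  have e40 : t ^ 20 * t ^ 20 = t ^ 40 := by ring
  have e20' : 1 ≤ t ^ 20 := Nat.one_le_pow _ _ ht1
  have e40' : 2 * t ≤ t ^ 40 := by
    calc 2 * t ≤ t ^ 20 := e20
      _ ≤ t ^ 20 * t ^ 20 := Nat.le_mul_of_pos_left _ e20'
      _ = t ^ 40 := e40
  have e2040 : t ^ 20 ≤ t ^ 40 := Nat.pow_le_pow_right ht1 (by norm_num)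
  have e23 : 1 ≤ t ^ 23 := Nat.one_le_pow _ _ ht1
  have e46 : t ≤ t ^ 46 := Nat.le_self_pow (by norm_num) t
  have hj : 2 * (t + 1) ^ 6 * (8 * t ^ 40) ≤ 32 * t ^ 46 := by
    calc 2 * (t + 1) ^ 6 * (8 * t ^ 40) ≤ 2 * (2 * t ^ 6) * (8 * t ^ 40) :=
          Nat.mul_le_mul_right _ (Nat.mul_le_mul_left _ (pow6 ht))
      _ = 32 * t ^ 46 := by ring
  have hfb := few_big h0 (N := N) (k := 8 * t ^ 40) (B := 2 * t ^ 20) (j := 2 * (t + 1) ^ 6)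
    (M := 9 * t ^ 23 - 1) (by positivity) (by
      have := two_tr (2 * t ^ 20)
      have h3 : 2 * t ^ 20 * (2 * t ^ 20 + 1) = 4 * t ^ 40 + 2 * t ^ 20 := by ring
      omega) (by
      refine hj.trans ?_
      calc 32 * t ^ 46 ≤ t ^ 14 * t ^ 46 := Nat.mul_le_mul_right _ e14
        _ = t ^ 60 := by ring
        _ ≤ N := h1) (by
      have h3 : 3 * t ^ 20 ≤ 2 * (2 * t ^ 20 + 1 - m0) := by omega
      have h4 : 7 * t ^ 40 ≤ 8 * t ^ 40 - Fr m0 := by omega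
      have h5 : 3 * t ^ 20 * (7 * t ^ 40) ≤ 2 * (2 * t ^ 20 + 1 - m0) * (8 * t ^ 40 - Fr m0) :=
        Nat.mul_le_mul h3 h4
      have h6 : 3 * t ^ 20 * (7 * t ^ 40) = 21 * t ^ 60 := by ring
      have h7 : 2 * (2 * t ^ 20 + 1 - m0) * (8 * t ^ 40 - Fr m0) =
        2 * ((2 * t ^ 20 + 1 - m0) * (8 * t ^ 40 - Fr m0)) := by ring
      omega) (by
      rw [Nat.sub_add_cancel (by omega)]
      have := two_tr (9 * t ^ 23)
      have h3 : 9 * t ^ 23 * (9 * t ^ 23 + 1) = 81 * t ^ 46 + 9 * t ^ 23 := by ring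
      omega) (by
      rw [Nat.sub_add_cancel (by omega)]
      have : t ≤ t ^ 23 := Nat.le_self_pow (by norm_num) t
      omega)
  -- divide by `N`
  have h3 : N ≤ 2 ^ ((t + 1) ^ 6) := h2.le.trans (pow_two_ge (by omega))
  set b := {ms ∈ PS m0 N | ∃ m ∈ ms, 9 * t ^ 23 - 1 < m}.ncard with hb
  have h4 : 2 ^ (2 * (t + 1) ^ 6) = 2 ^ ((t + 1) ^ 6) * 2 ^ ((t + 1) ^ 6) := by
    rw [← pow_add]; congr 1; ring
  have h5 : N * (2 ^ ((t + 1) ^ 6) * b) ≤ N * P m0 N := by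
    calc N * (2 ^ ((t + 1) ^ 6) * b) ≤ 2 ^ ((t + 1) ^ 6) * (2 ^ ((t + 1) ^ 6) * b) :=
          Nat.mul_le_mul_right _ h3
      _ = 2 ^ (2 * (t + 1) ^ 6) * b := by rw [h4]; ring
      _ ≤ _ := hfb
  exact Nat.le_of_mul_le_mul_left h5 hN0

/-- the critical degree -/
lemma exists_deg (N : ℕ) (hN : 1 ≤ N) : ∃ d, (d + 2).choose 2 ≤ N ∧ N < (d + 3).choose 2 := by
  classical
  have hex : ∃ d : ℕ, N < (d + 3).choose 2 :=
    ⟨N, by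
      have h1 := two_tr (N + 2)
      unfold tr at h1
      nlinarith⟩
  refine ⟨Nat.find hex, ?_, Nat.find_spec hex⟩
  rcases Nat.eq_zero_or_pos (Nat.find hex) with h | h
  · rw [h]; simpa using hN
  · have h1 := Nat.find_min hex (m := Nat.find hex - 1) (by omega)
    have h2 : Nat.find hex - 1 + 3 = Nat.find hex + 2 := by omega
    rw [h2] at h1
    exact Nat.le_of_not_lt h1

lemma deg_ge {d N t : ℕ} (ht : 100 ≤ t) (h1 : t ^ 60 ≤ N) (h2 : N < (d + 3).choose 2) :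
    t ^ 30 ≤ d := by
  have h3 := two_tr (d + 2)
  unfold tr at h3
  have h4 : t ≤ t ^ 30 := Nat.le_self_pow (by norm_num) t
  have h5 : t ^ 60 = t ^ 30 * t ^ 30 := by ring
  by_contra hcon
  push Not at hcon
  have h6 : (d + 2) * (d + 2 + 1) ≤ (t ^ 30 + 1) * (t ^ 30 + 2) := Nat.mul_le_mul (by omega) (by omega)
  have h7 : 2 * t ^ 60 < (t ^ 30 + 1) * (t ^ 30 + 2) := by
    calc 2 * t ^ 60 ≤ 2 * N := Nat.mul_le_mul_left _ h1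
      _ < 2 * (d + 3).choose 2 := by omega
      _ = (d + 2) * (d + 2 + 1) := h3
      _ ≤ _ := h6
  rw [h5] at h7
  nlinarith

/-- the multiplicities are small -/
lemma exact_num {C d t : ℕ} (ht : 1 ≤ t) (hC : C * 9 ^ 46 ≤ t) (hd : t ^ 30 ≤ d) :
    C * (9 * t ^ 23 - 1 + 1) ^ 46 ≤ d ^ 36 := by
  have e23 : 1 ≤ t ^ 23 := Nat.one_le_pow _ _ ht
  rw [Nat.sub_add_cancel (by omega)]
  calc C * (9 * t ^ 23) ^ 46 = (C * 9 ^ 46) * t ^ 1058 := by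
        rw [Nat.mul_pow, ← pow_mul, mul_assoc]
    _ ≤ t * t ^ 1058 := Nat.mul_le_mul_right _ hC
    _ = t ^ 1059 := (pow_succ' t 1058).symm
    _ ≤ t ^ 1080 := Nat.pow_le_pow_right ht (by norm_num)
    _ = (t ^ 30) ^ 36 := by rw [← pow_mul]
    _ ≤ d ^ 36 := Nat.pow_le_pow_left hd 36

lemma root10 {u x : ℝ} (hu : 0 ≤ u) (hx : 0 ≤ x) (h : x ≤ u ^ 60) : x ^ (1 / 10 : ℝ) ≤ u ^ 6 := by
  have h1 : x ^ (1 / 10 : ℝ) ≤ (u ^ 60) ^ (1 / 10 : ℝ) := Real.rpow_le_rpow hx h (by norm_num)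
  have h2 : (u ^ 60) ^ (1 / 10 : ℝ) = u ^ 6 := by
    have h3 : u ^ 60 = (u ^ 6) ^ (10 : ℕ) := by rw [← pow_mul]
    rw [h3, one_div]
    exact Real.pow_rpow_inv_natCast (n := 10) (by positivity) (by norm_num)
  rw [h2] at h1
  exact h1

lemma rpow_nat_pow (n : ℕ) : (2 : ℝ) ^ ((n : ℕ) : ℝ) = ((2 ^ n : ℕ) : ℝ) := by
  rw [Real.rpow_natCast]
  push_cast
  rfl

/-- from `2 ^ n` to the real power -/
lemma real_bound {N t b P : ℕ} (h2 : N < (t + 1) ^ 60) (h : 2 ^ ((t + 1) ^ 6) * b ≤ P) :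
    (b : ℝ) ≤ (2 : ℝ) ^ (-((N : ℝ) ^ (1 / 10 : ℝ))) * P := by
  obtain ⟨n, hn⟩ : ∃ n : ℕ, n = (t + 1) ^ 6 := ⟨_, rfl⟩
  have h3 : (N : ℝ) ^ (1 / 10 : ℝ) ≤ (n : ℝ) := by
    have h4 : ((N : ℕ) : ℝ) ≤ (((t + 1 : ℕ) : ℝ)) ^ 60 := by
      rw [← Nat.cast_pow]
      exact Nat.cast_le.mpr h2.le
    have h5 := root10 (Nat.cast_nonneg (α := ℝ) (t + 1)) (Nat.cast_nonneg (α := ℝ) N) h4
    rw [hn, Nat.cast_pow]
    exact h5
  rw [← hn] at h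
  have h5 : (2 : ℝ) ^ ((N : ℝ) ^ (1 / 10 : ℝ)) * b ≤ P := by
    calc (2 : ℝ) ^ ((N : ℝ) ^ (1 / 10 : ℝ)) * b ≤ (2 : ℝ) ^ (n : ℝ) * b := by
          apply mul_le_mul_of_nonneg_right _ (Nat.cast_nonneg _)
          exact Real.rpow_le_rpow_of_exponent_le (by norm_num) h3
      _ = ((2 ^ n * b : ℕ) : ℝ) := by
          rw [rpow_nat_pow, Nat.cast_mul]
      _ ≤ P := Nat.cast_le.mpr h
  have h6 : (0 : ℝ) < (2 : ℝ) ^ ((N : ℝ) ^ (1 / 10 : ℝ)) := Real.rpow_pos_of_pos (by norm_num) _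
  rw [Real.rpow_neg (by norm_num), inv_mul_eq_div, le_div_iff₀ h6, mul_comm]
  exact h5

end Pool.Agent.helper73.AA
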